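import Mathlib

/-! The cube, its homeomorphism group with the uniform topology, and graphs. -/

namespace Pool.Agent.MP_c4f89b_an

/-- The unit cube `[0,1]^d` in Euclidean space. -/
abbrev Cube (d : ℕ) : Type := {x : EuclideanSpace ℝ (Fin d) // ∀ i, x i ∈ Set.Icc (0 : ℝ) 1}

/-- The homeomorphisms of the cube, as a subspace of `C(Cube d, Cube d)`; the compact-open topology
on the latter is the topology of uniform convergence since the cube is compact. -/
abbrev Homeo (d : ℕ) : Type := {f : C(Cube d, Cube d) // IsHomeomorph f}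

/-- The graph `{(x, f x)}` of `f` as a subset of the Euclidean space `ℝ^(2d)`. -/
def graph {d : ℕ} (f : Homeo d) : Set (EuclideanSpace ℝ (Fin (d + d))) :=
  {z | ∃ x : Cube d, ∀ i : Fin d,
    z (Fin.castAdd d i) = x.1 i ∧ z (Fin.natAdd d i) = (f.1 x).1 i}

end Pool.Agent.MP_c4f89b_an
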